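import Pool.Agent.Helper66_D2.Tool

/-!
# Squad PP, part D2: module LF3
-/

open scoped BigOperators

set_option linter.unusedSectionVars false

noncomputable section

namespace Pool.Agent.PP.CD2.H47

open Pool.Agent.PP Pool.Agent.Helper51_AWC Pool.Agent.Helper79_WRA Pool.Agent.PP.CD2.H66
  Pool.Agent.PP.H20

section ring

variable {F A : Type} [Field F] [Ring A] [Algebra F A]

/-- polynomials in `Y` -/
theorem pol {q : ℕ} {Y B : A} (h : LinearIndependent F (fun m : Fin q => Y ^ (m : ℕ) * B))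
    {p : Polynomial F} (hp : p.natDegree < q) (h0 : Polynomial.aeval Y p * B = 0) : p = 0 := by
  rw [Polynomial.aeval_eq_sum_range' hp, Finset.sum_mul, Finset.sum_range] at h0
  have h1 := Fintype.linearIndependent_iff.1 h (fun m => p.coeff m) (by
    rw [← h0]
    exact Finset.sum_congr rfl fun m _ => by rw [smul_mul_assoc])
  ext k
  rw [Polynomial.coeff_zero]
  by_cases hk : k < q
  · exact h1 ⟨k, hk⟩
  · exact Polynomial.coeff_eq_zero_of_natDegree_lt (by omega)

/-- polynomials in `Y - 1` -/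
theorem pol' {q : ℕ} {Y B : A} (h : LinearIndependent F (fun m : Fin q => Y ^ (m : ℕ) * B))
    {p : Polynomial F} (hp : p.natDegree < q) (h0 : Polynomial.aeval (Y - 1) p * B = 0) :
    p = 0 := by
  have h1 : Polynomial.aeval Y (p.comp (Polynomial.X - Polynomial.C 1)) =
      Polynomial.aeval (Y - 1) p := by
    rw [Polynomial.aeval_comp]
    simp
  have h2 : p.comp (Polynomial.X - Polynomial.C 1) = 0 := by
    apply pol h
    · rw [Polynomial.natDegree_comp, Polynomial.natDegree_X_sub_C, mul_one]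
      exact hp
    · rw [h1, h0]
  have h3 : p = (p.comp (Polynomial.X - Polynomial.C 1)).comp
      (Polynomial.X + Polynomial.C 1) := by
    rw [Polynomial.comp_assoc]
    simp
  rw [h3, h2, Polynomial.zero_comp]

theorem li' {q : ℕ} {Y B : A} (h : LinearIndependent F (fun m : Fin q => Y ^ (m : ℕ) * B)) :
    LinearIndependent F (fun m : Fin q => (Y - 1) ^ (m : ℕ) * B) := by
  rw [Fintype.linearIndependent_iff]
  intro α hα
  rcases Nat.eq_zero_or_pos q with rfl | hq
  · exact fun i => i.elim0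
  have h1 : (∑ m : Fin q, Polynomial.C (α m) * Polynomial.X ^ (m : ℕ)) = 0 := by
    by_contra hne
    apply hne
    apply pol' h
    · have h2 := Polynomial.degree_sum_fin_lt α
      exact (Polynomial.natDegree_lt_iff_degree_lt hne).2 h2
    · rw [map_sum, Finset.sum_mul, ← hα]
      refine Finset.sum_congr rfl fun m _ => ?_
      rw [map_mul, Polynomial.aeval_C, map_pow, Polynomial.aeval_X, ← Algebra.smul_def,
        smul_mul_assoc]
  intro k
  have h2 := congrArg (fun p => Polynomial.coeff p (k : ℕ)) h1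
  simp only [Polynomial.finsetSum_coeff, Polynomial.coeff_C_mul, Polynomial.coeff_X_pow,
    Polynomial.coeff_zero] at h2
  rw [Finset.sum_eq_single k] at h2
  · simpa using h2
  · intro m _ hm
    rw [if_neg, mul_zero]
    intro h3
    exact hm (Fin.ext h3.symm)
  · intro h3
    exact absurd (Finset.mem_univ _) h3

end ring

/-- the central elements under `e` -/
def ZZ {F : Type} [Field F] {G : Type} [Group G] [Finite G] (e : G → F) :
    Submodule F (G → F) where
  carrier := {c | IsCl c ∧ mulF e c = c}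
  add_mem' := by
    rintro a c ⟨h1, h2⟩ ⟨h3, h4⟩
    exact ⟨isCl_add h1 h3, by rw [mulF_add, h2, h4]⟩
  zero_mem' := ⟨isCl_zero, mulF_zero _⟩
  smul_mem' := by
    rintro r a ⟨h1, h2⟩
    exact ⟨isCl_smul r h1, by rw [mulF_smul, h2]⟩

theorem mem_ZZ {F : Type} [Field F] {G : Type} [Group G] [Finite G] {e c : G → F} :
    c ∈ ZZ e ↔ IsCl c ∧ mulF e c = c := Iff.rfl

/-- LF3 -/
theorem lf3 (lfz : LfzStmt) (stb : StbStmt) : Lf3Stmt := by
  intro ℓ hℓ F _ hF G _ _ n P y e hS i d hd hC
  have := hF.char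
  have : Fact ℓ.Prime := hℓ
  obtain ⟨b', χ, hχe, hχm, hχz, hχy, hli⟩ := stb ℓ F hF G n P y e hS
  have he : IsIdem e := hS.blk.1
  obtain ⟨hz1, hz2⟩ := lfz F G e i d he hC
  set q := ℓ ^ (n + 1) with hq
  have hq0 : 0 < q := pow_pos hℓ.out.pos _
  set Y : MonoidAlgebra F G := MonoidAlgebra.single y 1 with hY
  set B : MonoidAlgebra F G := toMA b' with hB
  have hYm : ∀ m : ℕ, toMA (fun g => b' ((y ^ m)⁻¹ * g)) = Y ^ m * B := by
    intro m
    rw [hY, MonoidAlgebra.single_pow, one_pow, hB, single_mul_toMA]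
  have hLI : LinearIndependent F (fun m : Fin q => Y ^ (m : ℕ) * B) := by
    have h1 := hli.map' (maE (F := F) (H := G)).toLinearMap (LinearEquiv.ker _)
    have h2 : (maE (F := F) (H := G)).toLinearMap ∘
        (fun m : Fin q => fun g => b' ((y ^ (m : ℕ))⁻¹ * g)) =
        fun m : Fin q => Y ^ (m : ℕ) * B := by
      funext m
      exact hYm m
    rwa [h2] at h1
  have heZ : e ∈ ZZ e := ⟨he.1, he.2⟩
  -- the dimension of the centre
  have hfin : Module.finrank F (ZZ e) ≤ q := by
    let L : ZZ e →ₗ[F] (G → F) :=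
      { toFun := fun c => mulF c i
        map_add' := fun a c => add_mulF _ _ _
        map_smul' := fun r a => smul_mulF _ _ _ }
    have hLi : Function.Injective L := by
      rw [injective_iff_map_eq_zero]
      intro c hc
      exact Subtype.ext (hz2 c c.2.1 c.2.2 hc)
    have hLr : LinearMap.range L ≤ Submodule.span F (crn i) := by
      rintro _ ⟨c, rfl⟩
      refine Submodule.subset_span ⟨?_, ?_⟩
      · change mulF i (mulF c i) = mulF c i
        rw [← mulF_assoc, ← mulF_comm_of_cl c.2.1 i, mulF_assoc, hC.ii]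
      · change mulF (mulF c i) i = mulF c i
        rw [mulF_assoc, hC.ii]
    have : Module.Finite F (G → F) := Module.Finite.pi
    rw [← LinearMap.finrank_range_of_inj hLi]
    exact (Submodule.finrank_mono hLr).trans (hC.dim.trans hd)
  -- a family with independent images is a basis
  have hbas : ∀ u : Fin q → ZZ e, LinearIndependent F (fun m => toMA (χ (u m))) →
      ∀ c : ZZ e, ∃ α : Fin q → F, ∑ m, α m • u m = c := by
    intro u hu c
    let φ : ZZ e →ₗ[F] MonoidAlgebra F G :=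
      (maE (F := F) (H := G)).toLinearMap ∘ₗ χ ∘ₗ (ZZ e).subtype
    have hu' : LinearIndependent F u := LinearIndependent.of_comp φ hu
    have hcard : Fintype.card (Fin q) = Module.finrank F (ZZ e) := by
      apply le_antisymm hu'.fintype_card_le_finrank
      rw [Fintype.card_fin]
      exact hfin
    have hsp := hu'.span_eq_top_of_card_eq_finrank' hcard
    have h1 : c ∈ Submodule.span F (Set.range u) := by
      rw [hsp]
      exact Submodule.mem_top
    exact (Submodule.mem_span_range_iff_exists_fun F).1 h1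
  have hinj : ∀ c ∈ ZZ e, toMA (χ c) = 0 → c = 0 := by
    intro c hc h0
    choose u hu1 hu2 hu3 using hχy
    have hu4 : (fun m : Fin q => toMA (χ (u m))) = fun m : Fin q => Y ^ (m : ℕ) * B := by
      funext m
      rw [hu3, hYm]
    obtain ⟨α, hα⟩ := hbas (fun m => ⟨u m, hu1 m, hu2 m⟩) (by
      change LinearIndependent F (fun m : Fin q => toMA (χ (u m)))
      rw [hu4]
      exact hLI) ⟨c, hc⟩
    have hα' : ∑ m : Fin q, α m • u m = c := by
      have h9 := congrArg Subtype.val hα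
      refine Eq.trans ?_ h9
      rw [Submodule.coe_sum]
      rfl
    have h1 := Fintype.linearIndependent_iff.1 hLI α (by
      rw [← h0, ← hα', map_sum, toMA_sum]
      refine Finset.sum_congr rfl fun m _ => ?_
      rw [map_smul, toMA_smul, hu3, hYm])
    rw [← hα']
    exact Finset.sum_eq_zero fun m _ => by rw [h1 m, zero_smul]
  obtain ⟨c₁, hc1, hc2, hc3⟩ := hχy 1
  set w : G → F := c₁ - e with hw
  have hwZ : w ∈ ZZ e := (ZZ e).sub_mem ⟨hc1, hc2⟩ heZ
  have hχw : toMA (χ w) = (Y - 1) * B := by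
    rw [hw, map_sub, toMA_sub, hc3, hYm, hχe, pow_one, sub_mul, one_mul]
  have hmul : ∀ c ∈ ZZ e, mulF w c ∈ ZZ e ∧ toMA (χ (mulF w c)) = (Y - 1) * toMA (χ c) := by
    intro c hc
    refine ⟨⟨isCl_mulF hwZ.1 hc.1, ?_⟩, ?_⟩
    · rw [← mulF_assoc, hwZ.2]
    · have h1 : B * toMA (χ c) = toMA (χ c) := by
        rw [hB, ← hχe, ← toMA_mulF, ← hχm e c heZ.1 hc.1 heZ.2 hc.2, hc.2]
      rw [hχm w c hwZ.1 hc.1 hwZ.2 hc.2, toMA_mulF, hχw, mul_assoc, h1]
  have hpw : ∀ s : ℕ, pwF w s e ∈ ZZ e ∧ toMA (χ (pwF w s e)) = (Y - 1) ^ s * B := by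
    intro s
    induction s with
    | zero =>
      rw [pwF_zero, pow_zero, one_mul, hχe]
      exact ⟨heZ, rfl⟩
    | succ s ih =>
      rw [pwF_succ, (hmul _ ih.1).2, ih.2, pow_succ', mul_assoc]
      exact ⟨(hmul _ ih.1).1, rfl⟩
  have hchar : CharP (MonoidAlgebra F G) ℓ :=
    charP_of_injective_algebraMap (FaithfulSMul.algebraMap_injective F (MonoidAlgebra F G)) ℓ
  have hfrob : ∀ k : ℕ, (Y - 1) ^ ℓ ^ k = Y ^ ℓ ^ k - 1 := by
    intro k
    rw [sub_pow_char_pow_of_commute ℓ k (Commute.one_right Y), one_pow]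
  have hYq : Y ^ q = 1 := by
    rw [hY, MonoidAlgebra.single_pow, one_pow, hq, ← hS.ord, pow_orderOf_eq_one]
    rfl
  have hpi : ∀ s : ℕ, pwF w s i = mulF (pwF w s e) i := by
    intro s
    apply toMA_injective
    rw [toMA_mulF, toMA_pwF, toMA_pwF, mul_assoc, ← toMA_mulF e i, hC.ei]
  refine ⟨w, ⟨?_, ?_, ?_, ?_, ?_, ?_, ?_, ?_, ?_, ?_, ?_, ?_, ?_⟩, ?_⟩
  · exact fun x hx => absurd (Subgroup.mem_top x) hx
  · exact fun x hx => absurd (Subgroup.mem_top x) hx
  · exact fun x hx => absurd (Subgroup.mem_top x) hx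
  · exact cmF_of_cl he.1 _
  · exact cmF_of_cl hwZ.1 _
  · exact he.2
  · exact hwZ.2
  · exact hC.ii
  · exact hC.ei
  · apply hinj _ (hpw q).1
    rw [(hpw q).2, hq, hfrob, ← hq, hYq, sub_self, zero_mul]
  · intro h0
    rw [hpi] at h0
    have h1 := hz2 _ (hpw (q - 1)).1.1 (hpw (q - 1)).1.2 h0
    have h2 : (Y - 1) ^ (q - 1) * B = 0 := by
      rw [← (hpw (q - 1)).2, h1, map_zero, toMA_zero]
    have h3 : (Polynomial.X ^ (q - 1) : Polynomial F) = 0 := by
      apply pol' hLI
      · rw [Polynomial.natDegree_X_pow]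
        omega
      · rw [map_pow, Polynomial.aeval_X, h2]
    exact pow_ne_zero _ Polynomial.X_ne_zero h3
  · intro a _
    have h1 : mulF i (mulF a i) ∈ crn i := by
      refine ⟨?_, ?_⟩
      · rw [← mulF_assoc i i, hC.ii]
      · rw [mulF_assoc i _ i, mulF_assoc a i i, hC.ii]
    obtain ⟨c, h2, h3, h4⟩ := hz1 _ h1
    have h5 : (fun m : Fin q => toMA (χ (pwF w (m : ℕ) e))) =
        fun m : Fin q => (Y - 1) ^ (m : ℕ) * B := by
      funext m
      exact (hpw m).2
    obtain ⟨α, hα⟩ := hbas (fun m => ⟨pwF w (m : ℕ) e, (hpw m).1⟩) (by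
      change LinearIndependent F (fun m : Fin q => toMA (χ (pwF w (m : ℕ) e)))
      rw [h5]
      exact li' hLI) ⟨c, h2, h3⟩
    have hα' : ∑ m : Fin q, α m • pwF w (m : ℕ) e = c := by
      have h9 := congrArg Subtype.val hα
      refine Eq.trans ?_ h9
      rw [Submodule.coe_sum]
      rfl
    refine ⟨fun s => if h : s < q then α ⟨s, h⟩ else 0, ?_⟩
    rw [← h4, ← hα', Finset.sum_range, sum_mulF]
    refine Finset.sum_congr rfl fun m _ => ?_
    change _ = (if h : (m : ℕ) < q then α ⟨m, h⟩ else 0) • pwF w (m : ℕ) i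
    rw [dif_pos m.2, smul_mulF, hpi]
  · obtain ⟨m, x, y', h1⟩ := hC.full
    exact ⟨m, x, y', fun k => ⟨fun x hx => absurd (Subgroup.mem_top x) hx,
      fun x hx => absurd (Subgroup.mem_top x) hx⟩, h1⟩
  · have hcen := hS.cen
    have hz : (fun g => e ((y ^ (ℓ ^ n))⁻¹ * g)) ∈ ZZ e := by
      refine ⟨?_, ?_⟩
      · intro x t
        have h1 := Subgroup.mem_center_iff.1 (inv_mem hcen) t
        have h2 : (y ^ ℓ ^ n)⁻¹ * (t * x * t⁻¹) = t * ((y ^ ℓ ^ n)⁻¹ * x) * t⁻¹ := by
          rw [← mul_assoc, ← mul_assoc, ← h1]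
          simp only [mul_assoc]
        change e ((y ^ ℓ ^ n)⁻¹ * (t * x * t⁻¹)) = e ((y ^ ℓ ^ n)⁻¹ * x)
        rw [h2]
        exact he.1 _ _
      · apply toMA_injective
        rw [toMA_mulF, ← single_mul_toMA, ← mul_assoc, (H20.isCl_iff e).1 he.1, mul_assoc,
          ← toMA_mulF, he.2]
    have h3 : pwF w (ℓ ^ n) e - ((fun g => e ((y ^ (ℓ ^ n))⁻¹ * g)) - e) = 0 := by
      apply hinj
      · exact (ZZ e).sub_mem (hpw _).1 ((ZZ e).sub_mem hz heZ)
      · rw [map_sub, map_sub, toMA_sub, toMA_sub, (hpw _).2, hfrob, hχz _ hcen, hYm, hχe,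
          sub_mul, one_mul, sub_self]
    exact sub_eq_zero.1 h3

end Pool.Agent.PP.CD2.H47
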