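import Pool.Agent.Helper66_D2.Tool
import Pool.Agent.Helper51_D1.Wts
import Pool.Agent.Helper21_D1.Wgt

/-!
# Squad PP, part D2: module SPA
-/

open scoped BigOperators

set_option linter.unusedSectionVars false

noncomputable section

namespace Pool.Agent.PP.CD2.H47

open Pool.Agent.PP Pool.Agent.Helper51_AWC Pool.Agent.Helper79_WRA Pool.Agent.PP.CD2.H66

section

variable {F : Type} [Field F] {G : Type} [Group G] [Finite G] {V V' : Type} [AddCommGroup V]
  [Module F V] [AddCommGroup V'] [Module F V']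

/-- the index of the centraliser in the normaliser is prime to `ℓ` -/
theorem idx {ℓ : ℕ} (hℓ : ℓ.Prime) (N : Subgroup G) {y : G} (hy : orderOf y = ℓ) :
    ¬ ℓ ∣ (N ⊓ CY y).relIndex (N ⊓ NY y) := by
  have hle : N ⊓ NY y ≤ Subgroup.normalizer (Subgroup.zpowers y : Set G) := inf_le_right
  let f : (N ⊓ NY y : Subgroup G) →* MulAut (Subgroup.zpowers y) :=
    (Subgroup.normalizerMonoidHom (Subgroup.zpowers y)).comp (Subgroup.inclusion hle)
  have h1 : f.ker = (N ⊓ CY y).subgroupOf (N ⊓ NY y) := by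
    ext k
    have h2 : k ∈ f.ker ↔ Subgroup.inclusion hle k ∈
        (Subgroup.normalizerMonoidHom (Subgroup.zpowers y)).ker := Iff.rfl
    rw [h2, Subgroup.normalizerMonoidHom_ker, Subgroup.mem_subgroupOf, Subgroup.mem_subgroupOf]
    constructor
    · intro h
      exact ⟨k.2.1, h⟩
    · intro h
      exact h.2
  have h2 : (N ⊓ CY y).relIndex (N ⊓ NY y) ∣ ℓ - 1 := by
    rw [Subgroup.relIndex, ← h1, Subgroup.index_ker]
    have h3 := Subgroup.card_subgroup_dvd_card f.range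
    rw [IsCyclic.card_mulAut, Nat.card_zpowers, hy, Nat.totient_prime hℓ] at h3
    exact h3
  intro h
  have h4 := h.trans h2
  have h5 := hℓ.two_le
  have := Nat.le_of_dvd (by omega) h4
  omega

/-- maps commuting with the group commute with the elements of the group ring -/
theorem hom_ev {K : Subgroup G} {ρ : Representation F G V} {ρ' : Representation F G V'}
    {W : Submodule F V} {ι : V →ₗ[F] V'} (h : ∀ k ∈ K, ∀ v ∈ W, ι (ρ k v) = ρ' k (ι v))
    {a : G → F} (ha : SpF K a) {v : V} (hv : v ∈ W) : ι (evV ρ a v) = evV ρ' a (ι v) := by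
  have := Fintype.ofFinite G
  rw [D66.evV_apply, D66.evV_apply, map_sum]
  refine Finset.sum_congr rfl fun g _ => ?_
  by_cases hg : g ∈ K
  · rw [map_smul, h g hg v hv]
  · rw [ha g hg, zero_smul, zero_smul, map_zero]

end

/-- SPA -/
theorem spa (sep : SepStmt) : SpaStmt := by
  intro ℓ hℓ F _ hF G _ _ n N P y₁ b w hD V V' _ _ _ _ ρ ρ' T hT hbT g hg
  have fG : Fintype G := Fintype.ofFinite G
  obtain ⟨m, X, Y, hXY, hsum, hlin⟩ := sep F G (N ⊓ CY y₁) (bY y₁ b) w _ hD.ums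
  have hCK : N ⊓ CY y₁ ≤ N ⊓ NY y₁ := inf_le_inf_left _ (CY_le_NY y₁)
  set gh : V →ₗ[F] V' := ∑ k, evV ρ' (X k) ∘ₗ g ∘ₗ evV ρ (Y k) with hgh
  have hTC : Stb (N ⊓ CY y₁) ρ T := fun c hc => hT c (hCK hc)
  have hgc : ∀ c ∈ N ⊓ CY y₁, ∀ v ∈ T, gh (ρ c v) = ρ' c (gh v) := hlin V V' ρ ρ' T hTC g hg
  have hap : ∀ v, gh v = ∑ k, evV ρ' (X k) (g (evV ρ (Y k) v)) := by
    intro v
    rw [hgh, LinearMap.sum_apply]
    rfl
  -- the difference
  have hdif : ∀ W' ≤ T, Stb (N ⊓ NY y₁) ρ W' → ∀ T' : Submodule F V', Stb (N ⊓ NY y₁) ρ' T' →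
      ∀ ι : V →ₗ[F] V', (∀ k ∈ N ⊓ NY y₁, ∀ v ∈ W', ι (ρ k v) = ρ' k (ι v)) →
      (∀ v ∈ W', g v - ι v ∈ T') → ∀ v ∈ W', gh v - ι v ∈ T' := by
    intro W' hW' hW's T' hT' ι hι hd v hv
    have h1 : ι v = ∑ k, evV ρ' (X k) (ι (evV ρ (Y k) v)) := by
      have h2 : evV ρ (bY y₁ b) v = v := hbT v (hW' hv)
      have h3 : ι v = ι (evV ρ (bY y₁ b) v) := by rw [h2]
      rw [h3, ← hsum, evV_sum, LinearMap.sum_apply, map_sum]
      refine Finset.sum_congr rfl fun k _ => ?_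
      rw [evV_mulF_apply]
      exact hom_ev hι ((hXY k).1.mono hCK)
        (D66.evV_mem hW's ((hXY k).2.mono hCK) hv)
    rw [hap, h1, ← Finset.sum_sub_distrib]
    refine Submodule.sum_mem _ fun k _ => ?_
    rw [← map_sub]
    exact D66.evV_mem hT' ((hXY k).1.mono hCK)
      (hd _ (D66.evV_mem hW's ((hXY k).2.mono hCK) hv))
  obtain ⟨c, hc⟩ := D1H51.exists_w F hCK
  have hcs : ∑ x : G, c x = ((N ⊓ CY y₁).relIndex (N ⊓ NY y₁) : F) := by
    have h1 := D1H51.w_sum (F := F) hCK le_rfl hc (one_mem (N ⊓ NY y₁))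
    have fK : Fintype (N ⊓ NY y₁ : Subgroup G) := Fintype.ofFinite _
    rw [← h1, finsum_eq_sum_of_fintype]
    classical
    have h2 : ∑ x : G, c x = ∑ x ∈ Finset.univ.filter (· ∈ N ⊓ NY y₁), c x := by
      symm
      refine Finset.sum_subset (Finset.filter_subset _ _) fun x _ hx => hc.supp x fun h => ?_
      exact hx (Finset.mem_filter.2 ⟨Finset.mem_univ _, h⟩)
    rw [h2, Finset.sum_subtype (p := (· ∈ N ⊓ NY y₁)) (Finset.univ.filter (· ∈ N ⊓ NY y₁))
      (by simp)]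
    refine Finset.sum_congr rfl fun x _ => ?_
    rw [one_mul]
  have hne : ((N ⊓ CY y₁).relIndex (N ⊓ NY y₁) : F) ≠ 0 := by
    have := hF.char
    intro h0
    exact idx hℓ.out N hD.ord ((CharP.cast_eq_zero_iff F ℓ _).1 h0)
  set r : F := ((N ⊓ CY y₁).relIndex (N ⊓ NY y₁) : F) with hr
  have hsm : ∀ (v : V), (r⁻¹ • trW c ρ ρ' gh) v = r⁻¹ • ∑ x : G, c x • ρ' x (gh (ρ x⁻¹ v)) := by
    intro v
    rw [LinearMap.smul_apply, D66.trW_apply]
  refine ⟨r⁻¹ • trW c ρ ρ' gh, ?_, ?_⟩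
  · intro k hk v hv
    rw [hsm, hsm, map_smul]
    congr 1
    classical
    rw [map_sum]
    have h1 : ∑ x : G, c x • ρ' x (gh (ρ x⁻¹ (ρ k v))) =
        ∑ x : G, c (k * x) • (if x ∈ N ⊓ NY y₁ then ρ' (k * x) (gh (ρ x⁻¹ v)) else 0) := by
      symm
      refine Fintype.sum_equiv (Equiv.mulLeft k) _ _ fun x => ?_
      change _ = c (k * x) • ρ' (k * x) (gh (ρ (k * x)⁻¹ (ρ k v)))
      by_cases hx : x ∈ N ⊓ NY y₁
      · rw [if_pos hx, ← Module.End.mul_apply (ρ (k * x)⁻¹), ← map_mul, mul_inv_rev,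
          inv_mul_cancel_right]
      · have h2 : c (k * x) = 0 := hc.supp _ fun h => hx (by
          have := mul_mem (inv_mem hk) h
          rwa [inv_mul_cancel_left] at this)
        rw [h2, zero_smul, zero_smul]
    have h2 : ∑ x : G, ρ' k (c x • ρ' x (gh (ρ x⁻¹ v))) =
        ∑ x : G, c x • (if x ∈ N ⊓ NY y₁ then ρ' (k * x) (gh (ρ x⁻¹ v)) else 0) := by
      refine Finset.sum_congr rfl fun x _ => ?_
      by_cases hx : x ∈ N ⊓ NY y₁
      · rw [if_pos hx, map_smul, ← Module.End.mul_apply (ρ' k), ← map_mul]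
      · rw [hc.supp x hx, zero_smul, zero_smul, map_zero]
    rw [h1, h2]
    have hc' : IsW (N ⊓ NY y₁) (N ⊓ CY y₁) (fun x => c (k * x)) := by
      refine ⟨fun x hx => hc.supp _ fun h => hx ?_, fun x hx => ?_⟩
      · have := mul_mem (inv_mem hk) h
        rwa [inv_mul_cancel_left] at this
      · rw [← hc.sum (k * x) (mul_mem hk hx)]
        refine finsum_congr fun p => ?_
        rw [mul_assoc]
    refine D1H21.w1 hCK hc' hc _ fun x p hp => ?_
    have h3 : x * p ∈ N ⊓ NY y₁ ↔ x ∈ N ⊓ NY y₁ := by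
      constructor
      · intro h
        have := mul_mem h (inv_mem (hCK hp))
        rwa [mul_inv_cancel_right] at this
      · intro h
        exact mul_mem h (hCK hp)
    by_cases hx : x ∈ N ⊓ NY y₁
    · rw [if_pos hx, if_pos (h3.2 hx)]
      have h4 : ρ x⁻¹ v ∈ T := hT _ (inv_mem hx) v hv
      rw [mul_inv_rev, map_mul ρ, Module.End.mul_apply, hgc _ (inv_mem hp) _ h4, ← mul_assoc,
        map_mul ρ' (k * x) p, Module.End.mul_apply, ← Module.End.mul_apply (ρ' p), ← map_mul,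
        mul_inv_cancel, map_one, Module.End.one_apply]
    · rw [if_neg hx, if_neg fun h => hx (h3.1 h)]
  · intro W' hW' hW's T' hT' ι hι hd v hv
    rw [hsm]
    have h1 : ι v = r⁻¹ • ∑ x : G, c x • ι v := by
      rw [← Finset.sum_smul, hcs, smul_smul, inv_mul_cancel₀ hne, one_smul]
    rw [h1, ← smul_sub, ← Finset.sum_sub_distrib]
    refine Submodule.smul_mem _ _ (Submodule.sum_mem _ fun x _ => ?_)
    by_cases hx : x ∈ N ⊓ NY y₁
    · rw [← smul_sub]
      refine Submodule.smul_mem _ _ ?_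
      have h2 : ρ x⁻¹ v ∈ W' := hW's x⁻¹ (inv_mem hx) v hv
      have h3 : ι v = ρ' x (ι (ρ x⁻¹ v)) := by
        rw [← hι x hx _ h2, ← Module.End.mul_apply, ← map_mul, mul_inv_cancel, map_one,
          Module.End.one_apply]
      rw [h3, ← map_sub]
      exact hT' x hx _ (hdif W' hW' hW's T' hT' ι hι hd _ h2)
    · rw [hc.supp x hx, zero_smul, zero_smul, sub_zero]
      exact zero_mem _

end Pool.Agent.PP.CD2.H47
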